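import Mathlib

/-!
Definitions for MP_49fc99_mp: quantum random access codes and POVMs on `m` qubits.
-/

set_option autoImplicit false

open scoped Matrix ComplexOrder

namespace Pool.Agent.Q191.QR

/-- operators on `m` qubits: complex matrices whose rows and columns are indexed by the `2 ^ m` bit
strings of length `m` (the computational basis) -/
abbrev Op (m : ℕ) : Type := Matrix (Fin m → Bool) (Fin m → Bool) ℂ

/-- an `m`-qubit mixed state: a positive semidefinite operator of trace one -/
def IsState {m : ℕ} (ρ : Op m) : Prop := ρ.PosSemidef ∧ ρ.trace = 1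

/-- a POVM on `m` qubits with outcome set `S` -/
def IsPOVM {m : ℕ} {S : Type} [Fintype S] (Q : S → Op m) : Prop :=
  (∀ s, (Q s).PosSemidef) ∧ ∑ s, Q s = 1

/-- an `(n, m, p)`-QRAC -/
def IsQRAC (n m : ℕ) (p : ℝ) (ρ : (Fin n → Bool) → Op m) : Prop :=
  (∀ x, IsState (ρ x)) ∧
    ∀ i : Fin n, ∃ M : Bool → Op m, IsPOVM M ∧ ∀ x, p ≤ (M (x i) * ρ x).trace.re

/-- the probability that the `i`-th bit of the outcome `y` of the measurement `Q` of the state `σ`
is different from `b` -/
noncomputable def errProb {n m : ℕ} (Q : (Fin n → Bool) → Op m) (σ : Op m) (i : Fin n)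
    (b : Bool) : ℝ :=
  ∑ y : Fin n → Bool with y i ≠ b, (Q y * σ).trace.re

end Pool.Agent.Q191.QR
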