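import Pool.Agent.Q191.QR.Defs

/-!
Linear algebra for MP_49fc99_mp.
-/

set_option autoImplicit false
set_option linter.unusedSectionVars false

open scoped Matrix ComplexOrder
open Matrix

namespace Pool.Agent.Q191.QR

variable {ι : Type} [Fintype ι] [DecidableEq ι]

/-- the pure state of a vector -/
noncomputable def pure' (v : ι → ℂ) : Matrix ι ι ℂ := vecMulVec v (star v)

lemma pure_posSemidef (v : ι → ℂ) : (pure' v).PosSemidef := posSemidef_vecMulVec_self_star v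

lemma pure_trace (v : ι → ℂ) : (pure' v).trace = star v ⬝ᵥ v := by
  rw [pure', trace_vecMulVec, dotProduct_comm]

lemma trace_mul_pure (M : Matrix ι ι ℂ) (v : ι → ℂ) :
    (M * pure' v).trace = star v ⬝ᵥ (M *ᵥ v) := by
  rw [pure', mul_vecMulVec, trace_vecMulVec, dotProduct_comm]

/-- a projection: a diagonal one and a vector orthogonal to it -/
noncomputable def PJ (d : ι → ℂ) (v : ι → ℂ) : Matrix ι ι ℂ := diagonal d + pure' v

lemma PJ_herm {d v : ι → ℂ} (hd : ∀ y, star (d y) = d y) : (PJ d v)ᴴ = PJ d v := by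
  rw [PJ, conjTranspose_add, diagonal_conjTranspose, pure', conjTranspose_vecMulVec, star_star]
  congr 2
  funext y
  exact hd y

lemma PJ_idem {d v : ι → ℂ} (hd : ∀ y, d y * d y = d y) (hdv : ∀ y, d y * v y = 0)
    (hv : star v ⬝ᵥ v = 1) : PJ d v * PJ d v = PJ d v := by
  have h1 : diagonal d * diagonal d = diagonal d := by
    rw [diagonal_mul_diagonal]
    congr 1
    funext y
    exact hd y
  have h2 : diagonal d * pure' v = 0 := by
    rw [pure', mul_vecMulVec]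
    have : diagonal d *ᵥ v = 0 := by
      funext y
      rw [mulVec_diagonal]
      exact hdv y
    rw [this]
    ext i j
    simp [vecMulVec_apply]
  have h3 : pure' v * diagonal d = 0 := by
    ext i j
    rw [mul_diagonal, pure', vecMulVec_apply, Matrix.zero_apply, Pi.star_apply]
    by_cases hj : d j = 0
    · rw [hj, mul_zero]
    · have := hdv j
      have h0 : v j = 0 := by
        rcases mul_eq_zero.1 this with h | h
        · exact absurd h hj
        · exact h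
      rw [h0]
      simp
  have h4 : pure' v * pure' v = pure' v := by
    rw [pure', vecMulVec_mul_vecMulVec, hv, one_smul]
  rw [PJ, add_mul, mul_add, mul_add, h1, h2, h3, h4, zero_add, add_zero]

lemma posSemidef_of_proj {P : Matrix ι ι ℂ} (h1 : Pᴴ = P) (h2 : P * P = P) : P.PosSemidef := by
  have := posSemidef_conjTranspose_mul_self P
  rwa [h1, h2] at this

lemma posSemidef_one_sub {P : Matrix ι ι ℂ} (h1 : Pᴴ = P) (h2 : P * P = P) :
    (1 - P).PosSemidef := by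
  apply posSemidef_of_proj
  · rw [conjTranspose_sub, h1, conjTranspose_one]
  · rw [sub_mul, mul_sub, mul_sub, h2, one_mul, mul_one, one_mul, sub_self, sub_zero]

/-- the value of the projection -/
lemma PJ_val (d v w : ι → ℂ) :
    star w ⬝ᵥ (PJ d v *ᵥ w) = star w ⬝ᵥ (fun y => d y * w y) + (star v ⬝ᵥ w) * (star w ⬝ᵥ v) := by
  have h1 : PJ d v *ᵥ w = (fun y => d y * w y) + (star v ⬝ᵥ w) • v := by
    rw [PJ, add_mulVec]
    congr 1
    · funext y
      rw [mulVec_diagonal]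
    · rw [pure', vecMulVec_mulVec]
      funext y
      simp [mul_comm]
  rw [h1, dotProduct_add, dotProduct_smul, smul_eq_mul]

/-- Cauchy-Schwarz for a positive semidefinite matrix, in the weighted arithmetic mean form -/
lemma cs {Q : Matrix ι ι ℂ} (hQ : Q.PosSemidef) (v w : ι → ℂ) (l : ℝ) (hl : 0 < l) :
    2 * (star v ⬝ᵥ (Q *ᵥ w)).re ≤ l * (star v ⬝ᵥ (Q *ᵥ v)).re + (star w ⬝ᵥ (Q *ᵥ w)).re / l := by
  have h1 := hQ.re_dotProduct_nonneg ((l : ℂ) • v - w)
  have h2 : star w ⬝ᵥ (Q *ᵥ v) = star (star v ⬝ᵥ (Q *ᵥ w)) := by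
    rw [star_dotProduct]
    congr 1
    rw [star_mulVec, hQ.1, ← dotProduct_mulVec]
  have h3 : star ((l : ℂ) • v - w) ⬝ᵥ (Q *ᵥ ((l : ℂ) • v - w)) =
      (l : ℂ) * l * (star v ⬝ᵥ (Q *ᵥ v)) - l * (star v ⬝ᵥ (Q *ᵥ w)) -
        l * (star w ⬝ᵥ (Q *ᵥ v)) + star w ⬝ᵥ (Q *ᵥ w) := by
    have e1 : star ((l : ℂ) • v - w) = (l : ℂ) • star v - star w := by
      rw [star_sub, star_smul]
      congr 2
      exact Complex.conj_ofReal l
    rw [e1, mulVec_sub, mulVec_smul, sub_dotProduct, dotProduct_sub, dotProduct_sub,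
      smul_dotProduct, smul_dotProduct, dotProduct_smul, dotProduct_smul]
    simp only [smul_eq_mul]
    ring
  rw [h3, h2] at h1
  have h4 : RCLike.re ((l : ℂ) * l * (star v ⬝ᵥ (Q *ᵥ v)) - l * (star v ⬝ᵥ (Q *ᵥ w)) -
        l * (star (star v ⬝ᵥ (Q *ᵥ w))) + star w ⬝ᵥ (Q *ᵥ w)) =
      l * l * (star v ⬝ᵥ (Q *ᵥ v)).re - 2 * (l * (star v ⬝ᵥ (Q *ᵥ w)).re) +
        (star w ⬝ᵥ (Q *ᵥ w)).re := by
    rw [RCLike.re_to_complex]
    rw [Complex.add_re, Complex.sub_re, Complex.sub_re, mul_assoc, Complex.re_ofReal_mul,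
      Complex.re_ofReal_mul, Complex.re_ofReal_mul, Complex.re_ofReal_mul]
    have : (star (star v ⬝ᵥ (Q *ᵥ w))).re = (star v ⬝ᵥ (Q *ᵥ w)).re := Complex.conj_re _
    rw [this]
    ring
  rw [h4] at h1
  have h5 : l * (2 * (star v ⬝ᵥ (Q *ᵥ w)).re) ≤
      l * (l * (star v ⬝ᵥ (Q *ᵥ v)).re + (star w ⬝ᵥ (Q *ᵥ w)).re / l) := by
    have : l * (l * (star v ⬝ᵥ (Q *ᵥ v)).re + (star w ⬝ᵥ (Q *ᵥ w)).re / l) =
        l * l * (star v ⬝ᵥ (Q *ᵥ v)).re + (star w ⬝ᵥ (Q *ᵥ w)).re := by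
      field_simp
    rw [this]
    linarith
  exact le_of_mul_le_mul_left h5 hl

lemma nonneg_val {Q : Matrix ι ι ℂ} (hQ : Q.PosSemidef) (v : ι → ℂ) :
    0 ≤ (star v ⬝ᵥ (Q *ᵥ v)).re := hQ.re_dotProduct_nonneg v

end Pool.Agent.Q191.QR
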