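import Pool.Agent.Q191.QR.Lin

/-!
The counterexample for MP_49fc99_mp.
-/

set_option autoImplicit false
set_option linter.unusedSectionVars false

open scoped Matrix ComplexOrder
open Matrix

namespace Pool.Agent.Q191.QR

/-- bit strings of length ten -/
abbrev B10 : Type := Fin 10 → Bool

/-- the string with its only one at `i` -/
def e (i : Fin 10) : B10 := fun j => decide (j = i)

lemma e_inj : Function.Injective e := by
  intro i j h
  have := congrFun h i
  simpa [e] using this

lemma e_self (i : Fin 10) : e i i = true := by simp [e]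

lemma e_ne {i j : Fin 10} (h : i ≠ j) : e i j = false := by
  simp only [e, decide_eq_false_iff_not]
  exact fun h' => h h'.symm

/-- a real vector on the ten special strings -/
noncomputable def emb (w : Fin 10 → ℝ) : B10 → ℂ := Function.extend e (fun l => (w l : ℂ)) 0

lemma emb_e (w : Fin 10 → ℝ) (l : Fin 10) : emb w (e l) = w l := e_inj.extend_apply _ _ _

lemma emb_ne (w : Fin 10 → ℝ) {y : B10} (h : ¬ ∃ l, e l = y) : emb w y = 0 := by
  rw [emb, Function.extend_apply' _ _ _ h]
  rfl

lemma sum_e (f : B10 → ℂ) (h : ∀ y, (¬ ∃ l, e l = y) → f y = 0) : ∑ y, f y = ∑ l, f (e l) :=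
  (Fintype.sum_of_injective e e_inj (fun l => f (e l)) f (fun y hy => h y hy)
    (fun _ => rfl)).symm

lemma emb_dot (w w' : Fin 10 → ℝ) :
    star (emb w) ⬝ᵥ emb w' = ((∑ l, w l * w' l : ℝ) : ℂ) := by
  rw [dotProduct, sum_e]
  · push_cast
    refine Finset.sum_congr rfl fun l _ => ?_
    rw [Pi.star_apply, emb_e, emb_e]
    congr 1
    exact Complex.conj_ofReal _
  · intro y hy
    rw [emb_ne w' hy, mul_zero]

/-- the coefficients -/
noncomputable def cf (c0 c1 : ℝ) (i l : Fin 10) : ℝ := if l = i then c0 else c1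

lemma cf_sum (a b s t : ℝ) (i j : Fin 10) :
    ∑ l, cf a b i l * cf s t j l =
      10 * (b * t) + b * (s - t) + (a - b) * t + if i = j then (a - b) * (s - t) else 0 := by
  have h : ∀ l, cf a b i l * cf s t j l = b * t + (if l = j then b * (s - t) else 0) +
      (if l = i then (a - b) * t else 0) +
      (if l = i then (if i = j then (a - b) * (s - t) else 0) else 0) := by
    intro l
    unfold cf
    by_cases h1 : l = i
    · subst h1
      by_cases h2 : l = j
      · simp only [h2, if_true]; ring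
      · simp only [h2, if_true, if_false]; ring
    · by_cases h2 : l = j
      · simp only [h1, h2, if_true, if_false]
        have h3 : ¬ j = i := fun h => h1 (h2.trans h)
        simp only [h3, if_false]; ring
      · simp only [h1, h2, if_false]; ring
  rw [Finset.sum_congr rfl fun l _ => h l]
  simp only [Finset.sum_add_distrib, Finset.sum_ite_eq', Finset.mem_univ, if_true,
    Finset.sum_const, Finset.card_univ, Fintype.card_fin, nsmul_eq_mul]
  push_cast
  ring

/-- constants -/
noncomputable def sC : ℝ := 9999 / 10001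
noncomputable def tC : ℝ := 200 / 30003
noncomputable def aC : ℝ := 39999 / 40001
noncomputable def bC : ℝ := 400 / 120003

/-- the encoding vectors -/
noncomputable def psi (x : B10) : B10 → ℂ :=
  open Classical in
  if h : ∃ i, e i = x then emb (cf sC tC h.choose) else Pi.single x 1

lemma psi_e (i : Fin 10) : psi (e i) = emb (cf sC tC i) := by
  have h : ∃ j, e j = e i := ⟨i, rfl⟩
  rw [psi, dif_pos h]
  have := e_inj h.choose_spec
  rw [this]

lemma psi_ne {x : B10} (h : ¬ ∃ i, e i = x) : psi x = Pi.single x 1 := by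
  rw [psi, dif_neg h]

lemma single_dot (x : B10) (f : B10 → ℂ) : star (Pi.single x 1 : B10 → ℂ) ⬝ᵥ f = f x := by
  have : star (Pi.single x 1 : B10 → ℂ) = Pi.single x 1 := by
    funext y
    rw [Pi.star_apply, Pi.single_apply]
    split_ifs <;> simp
  rw [this, single_dotProduct, one_mul]

lemma psi_norm (x : B10) : star (psi x) ⬝ᵥ psi x = 1 := by
  by_cases h : ∃ i, e i = x
  · obtain ⟨i, rfl⟩ := h
    rw [psi_e, emb_dot, cf_sum, if_pos rfl]
    norm_num [sC, tC]
  · rw [psi_ne h, single_dot, Pi.single_eq_same]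

/-- the encoding -/
noncomputable def rho (x : B10) : Op 10 := pure' (psi x)

lemma rho_state (x : B10) : IsState (rho x) :=
  ⟨pure_posSemidef _, by rw [rho, pure_trace, psi_norm]⟩

/-- the diagonal part of the measurement of bit `i` -/
noncomputable def dd (i : Fin 10) (y : B10) : ℂ :=
  open Classical in
  if ∃ j, e j = y then 0 else if y i = true then 1 else 0

/-- the projection for the value one of bit `i` -/
noncomputable def PP (i : Fin 10) : Op 10 := PJ (dd i) (emb (cf aC bC i))

lemma PP_herm (i : Fin 10) : (PP i)ᴴ = PP i := by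
  apply PJ_herm
  intro y
  unfold dd
  split_ifs <;> simp

lemma PP_idem (i : Fin 10) : PP i * PP i = PP i := by
  apply PJ_idem
  · intro y
    unfold dd
    split_ifs <;> simp
  · intro y
    unfold dd
    by_cases h : ∃ j, e j = y
    · rw [if_pos h, zero_mul]
    · rw [emb_ne _ h, mul_zero]
  · rw [emb_dot, cf_sum, if_pos rfl]
    norm_num [aC, bC]

/-- the measurement of bit `i` -/
noncomputable def MM (i : Fin 10) (c : Bool) : Op 10 := if c = true then PP i else 1 - PP i

lemma MM_povm (i : Fin 10) : IsPOVM (MM i) := by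
  constructor
  · intro c
    unfold MM
    split_ifs
    · exact posSemidef_of_proj (PP_herm i) (PP_idem i)
    · exact posSemidef_one_sub (PP_herm i) (PP_idem i)
  · rw [Fintype.sum_bool]
    simp [MM]

lemma PP_val_ne (i : Fin 10) {x : B10} (h : ¬ ∃ j, e j = x) :
    (PP i * rho x).trace = if x i = true then 1 else 0 := by
  rw [rho, trace_mul_pure, PP, PJ_val, psi_ne h, single_dot, single_dot, emb_ne _ h, mul_zero,
    add_zero, Pi.single_eq_same, mul_one, dd, if_neg h]

lemma PP_val_e (i j : Fin 10) :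
    (PP i * rho (e j)).trace = (((10 * (bC * tC) + bC * (sC - tC) + (aC - bC) * tC +
      if i = j then (aC - bC) * (sC - tC) else 0) ^ 2 : ℝ) : ℂ) := by
  rw [rho, trace_mul_pure, PP, PJ_val, psi_e]
  have h1 : star (emb (cf sC tC j)) ⬝ᵥ (fun y => dd i y * emb (cf sC tC j) y) = 0 := by
    rw [dotProduct]
    apply Finset.sum_eq_zero
    intro y _
    by_cases h : ∃ j, e j = y
    · rw [dd, if_pos h, zero_mul, mul_zero]
    · rw [emb_ne _ h, mul_zero, mul_zero]
  rw [h1, zero_add, emb_dot, emb_dot, cf_sum]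
  have h2 : ∑ l, cf sC tC j l * cf aC bC i l = ∑ l, cf aC bC i l * cf sC tC j l :=
    Finset.sum_congr rfl fun l _ => mul_comm _ _
  rw [h2, cf_sum, ← Complex.ofReal_mul, pow_two]

lemma rho_qrac : IsQRAC 10 10 (1 - 11 / 100000) rho := by
  refine ⟨rho_state, fun i => ⟨MM i, MM_povm i, fun x => ?_⟩⟩
  by_cases h : ∃ j, e j = x
  · obtain ⟨j, rfl⟩ := h
    by_cases hij : j = i
    · subst hij
      rw [MM, e_self, if_pos rfl, PP_val_e, if_pos rfl, Complex.ofReal_re]
      norm_num [aC, bC, sC, tC]
    · rw [MM, e_ne hij, if_neg (by simp), sub_mul, one_mul, trace_sub, PP_val_e,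
        if_neg (fun h => hij h.symm), (rho_state _).2, Complex.sub_re, Complex.ofReal_re,
        Complex.one_re]
      norm_num [aC, bC, sC, tC]
  · rcases hx : x i with _ | _
    · rw [MM, if_neg (by simp), sub_mul, one_mul, trace_sub, PP_val_ne i h, (rho_state _).2,
        if_neg (by simp [hx])]
      norm_num
    · rw [MM, if_pos rfl, PP_val_ne i h, if_pos hx]
      norm_num

/-! ### no POVM is good -/

section

variable {Q : B10 → Op 10}

/-- the probability of the outcome `y` on the special state `i` -/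
noncomputable def pr (Q : B10 → Op 10) (y : B10) (i : Fin 10) : ℝ := (Q y * rho (e i)).trace.re

lemma pr_eq (y : B10) (i : Fin 10) :
    pr Q y i = (star (psi (e i)) ⬝ᵥ (Q y *ᵥ psi (e i))).re := by
  rw [pr, rho, trace_mul_pure]

lemma pr_nonneg (hQ : IsPOVM Q) (y : B10) (i : Fin 10) : 0 ≤ pr Q y i := by
  rw [pr_eq]
  exact nonneg_val (hQ.1 y) _

lemma sum_val (hQ : IsPOVM Q) (v w : B10 → ℂ) :
    ∑ y, (star v ⬝ᵥ (Q y *ᵥ w)).re = (star v ⬝ᵥ w).re := by
  rw [← Complex.re_sum, ← dotProduct_sum, ← sum_mulVec, hQ.2, one_mulVec]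

lemma pr_sum (hQ : IsPOVM Q) (i : Fin 10) : ∑ y, pr Q y i = 1 := by
  simp only [pr_eq]
  rw [sum_val hQ, psi_norm, Complex.one_re]

/-- the overlap of two special states -/
noncomputable def gC : ℝ := 10 * (tC * tC) + tC * (sC - tC) + (sC - tC) * tC

lemma key (hQ : IsPOVM Q) {i j : Fin 10} (hij : i ≠ j) (c : ℝ) (hc : 0 < c) :
    2 * gC ≤ 2 * c + (pr Q (e i) j + pr Q (e j) i) / c + (1 - pr Q (e i) i) +
      (1 - pr Q (e j) j) := by
  have h0 : (star (psi (e i)) ⬝ᵥ psi (e j)).re = gC := by
    rw [psi_e, psi_e, emb_dot, cf_sum, if_neg hij, Complex.ofReal_re, gC]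
    ring
  have h1 : ∀ y, 2 * (star (psi (e i)) ⬝ᵥ (Q y *ᵥ psi (e j))).re ≤
      (if y = e i then c * pr Q (e i) i + pr Q (e i) j / c - pr Q (e i) i else 0) +
      (if y = e j then pr Q (e j) i / c + c * pr Q (e j) j - pr Q (e j) j else 0) +
      pr Q y i + pr Q y j := by
    intro y
    have n1 := pr_nonneg hQ y i
    have n2 := pr_nonneg hQ y j
    by_cases hi : y = e i
    · have hj : ¬ y = e j := fun h => hij (e_inj (hi.symm.trans h))
      rw [if_pos hi, if_neg hj]
      have := cs (hQ.1 y) (psi (e i)) (psi (e j)) c hc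
      rw [← pr_eq, ← pr_eq] at this
      rw [hi] at this n1 n2 ⊢
      linarith
    · by_cases hj : y = e j
      · rw [if_neg hi, if_pos hj]
        have := cs (hQ.1 y) (psi (e i)) (psi (e j)) (1 / c) (by positivity)
        rw [← pr_eq, ← pr_eq] at this
        rw [hj] at this n1 n2 ⊢
        have e1 : 1 / c * pr Q (e j) i = pr Q (e j) i / c := by ring
        have e2 : pr Q (e j) j / (1 / c) = c * pr Q (e j) j := by field_simp
        rw [e1, e2] at this
        linarith
      · rw [if_neg hi, if_neg hj]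
        have := cs (hQ.1 y) (psi (e i)) (psi (e j)) 1 one_pos
        rw [← pr_eq, ← pr_eq] at this
        linarith
  have h2 := Finset.sum_le_sum fun y (_ : y ∈ Finset.univ) => h1 y
  rw [← Finset.mul_sum, sum_val hQ, h0] at h2
  simp only [Finset.sum_add_distrib, Finset.sum_ite_eq', Finset.mem_univ, if_true] at h2
  rw [pr_sum hQ, pr_sum hQ] at h2
  have hle : ∀ i, pr Q (e i) i ≤ 1 := by
    intro i
    rw [← pr_sum hQ i]
    exact Finset.single_le_sum (fun y _ => pr_nonneg hQ y i) (Finset.mem_univ (e i))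
  have h3 := mul_le_mul_of_nonneg_left (hle i) hc.le
  have h4 := mul_le_mul_of_nonneg_left (hle j) hc.le
  rw [add_div]
  linarith

lemma union (hQ : IsPOVM Q) (δ : ℝ)
    (hδ : ∀ i l : Fin 10, errProb Q (rho (e i)) l (e i l) ≤ δ) (i : Fin 10) :
    1 - pr Q (e i) i ≤ 10 * δ := by
  have h1 : 1 - pr Q (e i) i = ∑ y, if y = e i then 0 else pr Q y i := by
    have : ∀ y, (if y = e i then 0 else pr Q y i) = pr Q y i - if y = e i then pr Q y i else 0 := by
      intro y
      split_ifs <;> ring
    rw [Finset.sum_congr rfl fun y _ => this y, Finset.sum_sub_distrib, pr_sum hQ,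
      Finset.sum_ite_eq', if_pos (Finset.mem_univ _)]
  have h2 : ∀ y, (if y = e i then 0 else pr Q y i) ≤
      ∑ l, if y l ≠ e i l then pr Q y i else 0 := by
    intro y
    by_cases h : y = e i
    · rw [if_pos h]
      apply Finset.sum_nonneg
      intro l _
      split_ifs
      · exact pr_nonneg hQ y i
      · exact le_rfl
    · rw [if_neg h]
      obtain ⟨l, hl⟩ := Function.ne_iff.1 h
      refine le_trans (le_of_eq ?_) (Finset.single_le_sum
        (f := fun l => if y l ≠ e i l then pr Q y i else 0) ?_ (Finset.mem_univ l))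
      · simp only [if_pos hl]
      · intro l _
        change 0 ≤ (if y l ≠ e i l then pr Q y i else 0)
        split_ifs
        · exact pr_nonneg hQ y i
        · exact le_rfl
  rw [h1]
  refine (Finset.sum_le_sum fun y _ => h2 y).trans ?_
  rw [Finset.sum_comm]
  have h3 : ∀ l : Fin 10, (∑ y, if y l ≠ e i l then pr Q y i else 0) ≤ δ := by
    intro l
    refine le_trans (le_of_eq ?_) (hδ i l)
    rw [errProb, Finset.sum_filter]
    rfl
  refine (Finset.sum_le_sum fun l _ => h3 l).trans (le_of_eq ?_)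
  simp

lemma star_le (hQ : IsPOVM Q) (δ : ℝ)
    (hδ : ∀ i l : Fin 10, errProb Q (rho (e i)) l (e i l) ≤ δ) (i : Fin 10) :
    ∑ j, (if j = i then 0 else pr Q (e j) i) ≤ δ := by
  refine le_trans ?_ (hδ i i)
  rw [errProb, Finset.sum_filter]
  have h1 : ∑ j, (if j = i then 0 else pr Q (e j) i) =
      ∑ j, (if e j i ≠ e i i then (Q (e j) * rho (e i)).trace.re else 0) := by
    refine Finset.sum_congr rfl fun j _ => ?_
    by_cases h : j = i
    · subst h
      simp
    · rw [if_neg h, e_self, e_ne h, if_pos (by simp)]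
      rfl
  rw [h1, ← Finset.sum_image (f := fun y : B10 =>
    if y i ≠ e i i then (Q y * rho (e i)).trace.re else 0) (g := e)
    (fun a _ b _ hab => e_inj hab)]
  apply Finset.sum_le_sum_of_subset_of_nonneg (Finset.subset_univ _)
  intro y _ _
  split_ifs
  · exact pr_nonneg hQ y i
  · exact le_rfl

lemma final (hQ : IsPOVM Q) (δ : ℝ) (hδ1 : δ ≤ 22 / 100000)
    (hδ : ∀ i l : Fin 10, errProb Q (rho (e i)) l (e i l) ≤ δ) : False := by
  have hk : ∀ i j : Fin 10, (if j = i then 0 else 2 * gC) ≤
      (if j = i then 0 else 2 * (1 / 200 : ℝ) + 20 * δ) +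
        200 * (if j = i then 0 else pr Q (e j) i) + 200 * (if i = j then 0 else pr Q (e i) j) := by
    intro i j
    by_cases h : j = i
    · subst h
      simp
    · rw [if_neg h, if_neg h, if_neg h, if_neg (fun h' => h h'.symm)]
      have h1 := key hQ (i := i) (j := j) (fun h' => h h'.symm) (1 / 200) (by norm_num)
      have h2 := union hQ δ hδ i
      have h3 := union hQ δ hδ j
      have h4 : (pr Q (e i) j + pr Q (e j) i) / (1 / 200) =
          200 * pr Q (e j) i + 200 * pr Q (e i) j := by ring
      rw [h4] at h1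
      linarith
  have hs := Finset.sum_le_sum fun i (_ : i ∈ Finset.univ) =>
    Finset.sum_le_sum fun j (_ : j ∈ Finset.univ) => hk i j
  simp only [Finset.sum_add_distrib, ← Finset.mul_sum] at hs
  have hA : ∑ i : Fin 10, ∑ j, (if j = i then 0 else pr Q (e j) i) ≤ 10 * δ := by
    refine (Finset.sum_le_sum fun i _ => star_le hQ δ hδ i).trans (le_of_eq ?_)
    simp
  have hB : ∑ i : Fin 10, ∑ j, (if i = j then 0 else pr Q (e i) j) ≤ 10 * δ := by
    rw [Finset.sum_comm]
    exact hA
  have hC : ∀ c : ℝ, ∑ i : Fin 10, ∑ j : Fin 10, (if j = i then 0 else c) = 90 * c := by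
    intro c
    have : ∀ i : Fin 10, ∑ j : Fin 10, (if j = i then 0 else c) = 9 * c := by
      intro i
      have h1 : ∀ j : Fin 10, (if j = i then 0 else c) = c - if j = i then c else 0 := by
        intro j
        split_ifs <;> ring
      rw [Finset.sum_congr rfl fun j _ => h1 j, Finset.sum_sub_distrib, Finset.sum_ite_eq',
        if_pos (Finset.mem_univ _)]
      simp
      ring
    rw [Finset.sum_congr rfl fun i _ => this i]
    simp
    ring
  rw [hC, hC] at hs
  have hg : (0.0136 : ℝ) < gC := by norm_num [gC, sC, tC]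
  nlinarith

end

theorem main : ∃ n m : ℕ, 1 ≤ n ∧ 1 ≤ m ∧ ∃ p : ℝ, 1 / 2 < p ∧ p ≤ 1 ∧
    ∃ ρ : (Fin n → Bool) → Op m, IsQRAC n m p ρ ∧
      ∀ Q : (Fin n → Bool) → Op m, IsPOVM Q →
        ∃ (x : Fin n → Bool) (i : Fin n), 2 * p * (1 - p) < errProb Q (ρ x) i (x i) := by
  refine ⟨10, 10, by norm_num, by norm_num, 1 - 11 / 100000, by norm_num, by norm_num, rho,
    rho_qrac, fun Q hQ => ?_⟩
  by_contra hcon
  push Not at hcon
  exact final hQ _ (by norm_num) fun i l => hcon (e i) l

end Pool.Agent.Q191.QR
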